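import Pool.Agent.W873.RS.Main
import Pool.Agent.W176.RS.GA1
import Pool.Agent.W995.RS.GA2
import Pool.Agent.W243.RS.GA3
import Pool.Agent.W899.RS.GA4
import Pool.Agent.W433.RS.HY
import Pool.Agent.W202.RS.LAW
import Pool.Agent.W336.RS.DET1
import Pool.Agent.W641.RS.DET2
import Pool.Agent.W695.RS.DET3
import Pool.Agent.W406.RS.TON
import Pool.Agent.W755.RS.FAT
import Pool.Agent.W111.RS.MEAS
import Pool.Agent.W236.RS.JM
import Pool.Agent.W509.RS.FRZ
import Pool.Agent.W697.RS.PAIR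
import Pool.Agent.W153.RS.NEG

/-!
# The real tau-conjecture for sums of squares is true on average

For arbitrary supports `A i`, arbitrary nonzero standard deviations `σ i j`, arbitrary real scalars
`c i` and an arbitrary fixed polynomial `h`, let
`f = h + ∑ i, c i * (∑ j ∈ A i, σ i j * z i j * X ^ j) ^ 2` with independent standard Gaussian
`z i j`.  The expected number of distinct real roots of `f` is at most
`6 * ∑ i, |A i| + 2 * |h|₀ + 1`.
-/

set_option autoImplicit false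

open MeasureTheory ProbabilityTheory Polynomial
open scoped ENNReal

namespace Pool.Agent.Results.MP_f72d10_lc.GaussianSumsOfSquares

theorem result (s : ℕ) (A : Fin s → Finset ℕ) (σ : Fin s → ℕ → ℝ) (c : Fin s → ℝ) (h : ℝ[X])
    (hA : ∀ i, (A i).Nonempty) (hσ : ∀ i, ∀ j ∈ A i, σ i j ≠ 0) :
    Measurable (fun z : (i : Fin s) → A i → ℝ =>
      (h + ∑ i, C (c i) * (∑ j : A i, C (σ i j * z i j) * X ^ (j : ℕ)) ^ 2 :
        ℝ[X]).roots.toFinset.card) ∧
    ∫⁻ z : (i : Fin s) → A i → ℝ,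
      ((h + ∑ i, C (c i) * (∑ j : A i, C (σ i j * z i j) * X ^ (j : ℕ)) ^ 2 :
        ℝ[X]).roots.toFinset.card : ℝ≥0∞)
      ∂(Measure.pi fun i => Measure.pi fun _ : A i => gaussianReal 0 1) ≤
      ((6 * ∑ i, (A i).card + 2 * h.support.card + 1 : ℕ) : ℝ≥0∞) := by
  have hGA3 : Pool.Agent.W873.RS.GA3 :=
    Pool.Agent.W243.RS.GA3.main Pool.Agent.W995.RS.GA2.main
  have hGA4 : Pool.Agent.W873.RS.GA4 :=
    Pool.Agent.W899.RS.GA4.main Pool.Agent.W176.RS.GA1.main hGA3
  have hPAIR : Pool.Agent.W873.RS.PAIR := @Pool.Agent.W697.RS.PAIR.main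
    Pool.Agent.W433.RS.HY.main hGA4 Pool.Agent.W202.RS.LAW.main
  exact ⟨@Pool.Agent.W111.RS.MEAS.main s A σ c h,
    Pool.Agent.W873.RS.expected_roots Pool.Agent.W406.RS.TON.main Pool.Agent.W336.RS.DET1.main
      @hPAIR @Pool.Agent.W236.RS.JM.main @Pool.Agent.W509.RS.FRZ.main
      (Pool.Agent.W695.RS.DET3.main Pool.Agent.W641.RS.DET2.main) Pool.Agent.W755.RS.FAT.main
      @Pool.Agent.W153.RS.NEG.main A σ c h hA hσ⟩

end Pool.Agent.Results.MP_f72d10_lc.GaussianSumsOfSquares
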