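import Pool.Agent.W873.RT.Main
import Pool.Agent.W859.RT.AFF
import Pool.Agent.W334.RT.PR2
import Pool.Agent.W737.RT.VNP
import Pool.Agent.W271.RT.LAY
import Pool.Agent.W291.RT.DETG
import Pool.Agent.W755.RT.EX2
import Pool.Agent.W73.RT.SHF
import Pool.Agent.W725.RT.CNT
import Pool.Agent.W878.RT.MS2
import Pool.Agent.W641.RS.DET2
import Pool.Agent.W406.RS.TON
import Pool.Agent.W755.RS.FAT

/-!
# Smoothed analysis of the real tau-conjecture for sums of squares

For arbitrary nonzero real polynomials `f i` and independent random scalars `c i` whose laws have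
density at most `K` and first absolute moment at most `M`, the expected number of distinct real
roots of `∑ i, c i * f i ^ 2` is at most `100 * (1 + K * M) * s * ∑ i, |f i|₀`.
-/

set_option autoImplicit false

open MeasureTheory Polynomial
open scoped ENNReal NNReal

namespace Pool.Agent.Results.MP_f72d10_lc.RandomScalars

theorem result (s : ℕ) (f : Fin s → ℝ[X]) (μ : Fin s → Measure ℝ)
    [∀ i, IsProbabilityMeasure (μ i)] (K M : ℝ≥0) (hf : ∀ i, f i ≠ 0)
    (hK : ∀ i, μ i ≤ (K : ℝ≥0∞) • volume) (hM : ∀ i, ∫⁻ c, ENNReal.ofReal |c| ∂(μ i) ≤ M) :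
    Measurable (fun c : Fin s → ℝ =>
      (∑ i, C (c i) * f i ^ 2 : ℝ[X]).roots.toFinset.card) ∧
    ∫⁻ c : Fin s → ℝ, ((∑ i, C (c i) * f i ^ 2 : ℝ[X]).roots.toFinset.card : ℝ≥0∞)
      ∂(Measure.pi μ) ≤
      100 * (1 + K * M) * s * ((∑ i, (f i).support.card : ℕ) : ℝ≥0∞) := by
  have hMS : Pool.Agent.W873.RT.MS2 := Pool.Agent.W878.RT.MS2.main
  have hTON : Pool.Agent.W873.RS.TON := Pool.Agent.W406.RS.TON.main
  have hPR2 : Pool.Agent.W873.RT.PR2 := Pool.Agent.W334.RT.PR2.main Pool.Agent.W859.RT.AFF.main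
  have hLAY : Pool.Agent.W873.RT.LAY := Pool.Agent.W271.RT.LAY.main Pool.Agent.W737.RT.VNP.main
  have hEX2 : Pool.Agent.W873.RT.EX2 := Pool.Agent.W755.RT.EX2.main hPR2 hLAY hTON hMS
  have hSHF : Pool.Agent.W873.RT.SHF := Pool.Agent.W73.RT.SHF.main hEX2
  have hDETG : Pool.Agent.W873.RT.DETG := Pool.Agent.W291.RT.DETG.main
    Pool.Agent.W641.RS.DET2.main
  exact ⟨(hMS s f).1, Pool.Agent.W873.RT.main hTON Pool.Agent.W755.RS.FAT.main hMS hSHF hDETG
    Pool.Agent.W725.RT.CNT.main s f μ K M hf hK hM⟩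

end Pool.Agent.Results.MP_f72d10_lc.RandomScalars
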